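import Pool.Agent.Lib.MP_688fd0_co.SQ7.H31.Wrd
import Pool.Agent.Lib.MP_688fd0_co.SQ7.H25.Prim
import Pool.Agent.Lib.MP_688fd0_co.SQ6.H93.Gen

/-!
Type C2, B1-FULL, row GEN (helper31, paper by helper25): the generator of `N ∩ V` as the value of a short word of a
prescribed length modulo `l₁ = 4 κ`.
-/

set_option autoImplicit false

namespace Pool.Agent.Lib.MP_688fd0_co.SQ7.H31

open Pool.Agent.Lib.MP_688fd0_co.SQ7.H25 (vl vl_nil vl_append vl_cons Wd Sh exists_word)

/-! ### The group of the columns -/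

section

variable {Y Λ : Type} [Group Y] {q : Λ → Y} {B : List Λ}

/-- Conjugates of quotients of letters, by prefixes of the circuit. -/
def gs (q : Λ → Y) (B : List Λ) : Set Y :=
  {x | ∃ c : ℕ, ∃ h : c < B.length, ∃ s, x = vl q (B.take c) * q s * (vl q (B.take c) * q B[c])⁻¹}

/-- The prefixes of the periodic continuation of the circuit. -/
def pre (q : Λ → Y) (B : List Λ) (n : ℕ) : Y := vl q (B.take (n % B.length))

theorem pre_succ (hB : vl q B = 1) (hB0 : 0 < B.length) (n : ℕ) :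
    pre q B (n + 1) = pre q B n * q (B[n % B.length]'(Nat.mod_lt _ hB0)) := by
  have h1 := Nat.mod_lt n hB0
  have h2 : vl q (B.take (n % B.length + 1)) = vl q (B.take (n % B.length)) * q (B[n % B.length]'h1) := by
    rw [List.take_succ_eq_append_getElem h1, vl_append, vl_cons, vl_nil, mul_one]
  unfold pre
  rw [← h2]
  rcases Nat.lt_or_ge (n % B.length + 1) B.length with h3 | h3
  · congr 2
    rw [← Nat.mod_eq_of_lt h3, Nat.mod_add_mod]
  · have h4 : n % B.length + 1 = B.length := by omega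
    have h5 : (n + 1) % B.length = 0 := by
      rw [← Nat.mod_add_mod, h4, Nat.mod_self]
    rw [h5, h4, List.take_length, hB, List.take_zero, vl_nil]

theorem word_pre (hB : vl q B = 1) (hB0 : 0 < B.length) (w : List Λ) :
    vl q w * (pre q B w.length)⁻¹ ∈ Subgroup.closure (gs q B) := by
  induction w using List.reverseRecOn with
  | nil =>
    have h1 : pre q B ([] : List Λ).length = 1 := by
      unfold pre
      rw [List.length_nil, Nat.zero_mod, List.take_zero, vl_nil]
    rw [h1, vl_nil, inv_one, one_mul]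
    exact Subgroup.one_mem _
  | append_singleton w s ih =>
    rw [List.length_append, List.length_singleton, pre_succ hB hB0, vl_append, vl_cons, vl_nil, mul_one]
    have h1 := Nat.mod_lt w.length hB0
    have h2 : pre q B w.length * q s * (pre q B w.length * q (B[w.length % B.length]'h1))⁻¹ ∈
        Subgroup.closure (gs q B) := Subgroup.subset_closure ⟨_, h1, s, rfl⟩
    have h3 : vl q w * q s * (pre q B w.length * q (B[w.length % B.length]'h1))⁻¹ =
        vl q w * (pre q B w.length)⁻¹ * (pre q B w.length * q s * (pre q B w.length * q (B[w.length % B.length]'h1))⁻¹) := by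
      group
    rw [h3]
    exact Subgroup.mul_mem _ ih h2

theorem word_word (hB : vl q B = 1) (hB0 : 0 < B.length) {w w' : List Λ} (h : w.length = w'.length) :
    vl q w * (vl q w')⁻¹ ∈ Subgroup.closure (gs q B) := by
  have h1 := word_pre hB hB0 w
  have h2 := word_pre hB hB0 w'
  rw [h] at h1
  have h3 := Subgroup.mul_mem _ h1 (Subgroup.inv_mem _ h2)
  have h4 : vl q w * (pre q B w'.length)⁻¹ * (vl q w' * (pre q B w'.length)⁻¹)⁻¹ = vl q w * (vl q w')⁻¹ := by group
  rwa [h4] at h3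

theorem gs_eq [Finite Y] (hgen : Subgroup.closure (Set.range q) = ⊤) (hB : vl q B = 1) (hB0 : 0 < B.length) :
    Subgroup.normalClosure {x | ∃ s s', x = q s * (q s')⁻¹} = Subgroup.closure (gs q B) := by
  apply le_antisymm
  · rw [Subgroup.normalClosure, Subgroup.closure_le]
    intro x hx
    rw [Group.mem_conjugatesOfSet_iff] at hx
    obtain ⟨a, ⟨s, s', rfl⟩, hx⟩ := hx
    rw [isConj_iff] at hx
    obtain ⟨y, rfl⟩ := hx
    obtain ⟨u, -, rfl⟩ := exists_word hgen y
    have h1 := word_word hB hB0 (w := u ++ [s]) (w' := u ++ [s']) (by simp)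
    have h2 : vl q (u ++ [s]) * (vl q (u ++ [s']))⁻¹ = vl q u * (q s * (q s')⁻¹) * (vl q u)⁻¹ := by
      rw [vl_append, vl_append, vl_cons, vl_cons, vl_nil]
      group
    rwa [h2] at h1
  · rw [Subgroup.closure_le]
    rintro x ⟨c, hc, s, rfl⟩
    have h1 : vl q (B.take c) * q s * (vl q (B.take c) * q B[c])⁻¹ =
        vl q (B.take c) * (q s * (q B[c])⁻¹) * (vl q (B.take c))⁻¹ := by group
    have h2 : q s * (q B[c])⁻¹ ∈ Subgroup.normalClosure {x | ∃ s s', x = q s * (q s')⁻¹} :=
      Subgroup.subset_normalClosure ⟨s, B[c], rfl⟩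
    rw [h1]
    exact Subgroup.normalClosure_normal.conj_mem _ h2 _

/-- All elements are powers of a letter modulo the quotients. -/
theorem word_pow [Finite Y] (hgen : Subgroup.closure (Set.range q) = ⊤) (hB : vl q B = 1) (hB0 : 0 < B.length)
    (w : List Λ) (s₀ : Λ) :
    vl q w * (q s₀ ^ w.length)⁻¹ ∈ Subgroup.normalClosure {x | ∃ s s', x = q s * (q s')⁻¹} := by
  have h1 := word_word hB hB0 (w := w) (w' := List.replicate w.length s₀) (by simp)
  rw [gs_eq hgen hB hB0]
  have h2 : vl q (List.replicate w.length s₀) = q s₀ ^ w.length := by simp [vl]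
  rwa [h2] at h1

theorem pow_b [Finite Y] (hgen : Subgroup.closure (Set.range q) = ⊤) (hB : vl q B = 1) (hB0 : 0 < B.length)
    (s₀ : Λ) : q s₀ ^ B.length ∈ Subgroup.normalClosure {x | ∃ s s', x = q s * (q s')⁻¹} := by
  have h1 := word_pow hgen hB hB0 B s₀
  rw [hB, one_mul] at h1
  simpa using Subgroup.inv_mem _ h1

/-- The power of a letter with the exponent `l₁`. -/
theorem pow_l [Finite Y] (hgen : Subgroup.closure (Set.range q) = ⊤) (hB : vl q B = 1) (hB0 : 0 < B.length)
    {l₁ D : ℕ} (H : Wd q l₁ D) (s₀ : Λ) : q s₀ ^ l₁ ∈ Subgroup.normalClosure {x | ∃ s s', x = q s * (q s')⁻¹} := by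
  set V := Subgroup.normalClosure {x | ∃ s s', x = q s * (q s')⁻¹} with hV
  have h1 : ∀ d, D ≤ d → l₁ ∣ d → q s₀ ^ d ∈ V := by
    intro d hd hdd
    obtain ⟨w, h1, h2⟩ := H.one d hd hdd
    have h3 := word_pow hgen hB hB0 w s₀
    rw [h2, one_mul, h1] at h3
    simpa using V.inv_mem h3
  rcases Nat.eq_zero_or_pos l₁ with h0 | h0
  · rw [h0, pow_zero]; exact V.one_mem
  · have h2 := h1 (l₁ * D) (Nat.le_mul_of_pos_left D h0) ⟨D, rfl⟩
    have h3 := h1 (l₁ * (D + 1)) (by
      have := Nat.le_mul_of_pos_left (D + 1) h0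
      omega) ⟨D + 1, rfl⟩
    have h4 : q s₀ ^ l₁ = (q s₀ ^ (l₁ * D))⁻¹ * q s₀ ^ (l₁ * (D + 1)) := by
      rw [mul_add, mul_one, pow_add, inv_mul_cancel_left]
    rw [h4]
    exact V.mul_mem (V.inv_mem h2) h3

/-- **GEN** in `Y`. -/
theorem gen_y [Finite Y] (hgen : Subgroup.closure (Set.range q) = ⊤) (hB : vl q B = 1) (hB0 : 0 < B.length) {l₁ D : ℕ}
    (hl₁ : 0 < l₁) (H : Wd q l₁ D) (V : Subgroup Y) (hV : V = Subgroup.normalClosure {x | ∃ s s', x = q s * (q s')⁻¹})
    (C : Subgroup Y) (hC : C.Normal) (hCV : C ≤ V) (hcyc : IsCyclic C) (hsq : Squarefree (Nat.card C))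
    (hp : ∀ p ∈ (Nat.card C).primeFactors, (Nat.card C).primeFactors.card + 1 < p) (s₀ : Λ) (L : ℕ)
    (hL : q s₀ ^ L ∈ V) :
    ∃ g, Subgroup.zpowers g = C ∧ Sh q l₁ (((Nat.card C).primeFactors.card + 2) ^ 2 * (3 * C.index + 3) *
      (B.length * (1 + D)) + l₁) g L := by
  set b := B.length with hb
  have hVb : q s₀ ^ l₁ ∈ V := by rw [hV]; exact pow_l hgen hB hB0 H s₀
  have hω : q s₀ ^ (L % l₁) ∈ V := by
    have h1 : q s₀ ^ (L % l₁) = q s₀ ^ L * ((q s₀ ^ l₁) ^ (L / l₁))⁻¹ := by
      rw [eq_mul_inv_iff_mul_eq, ← pow_mul, ← pow_add, Nat.mod_add_div]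
    rw [h1]
    exact V.mul_mem hL (V.inv_mem (V.pow_mem hVb _))
  have hVg : V = Subgroup.closure (gs q B) := by rw [hV, gs_eq hgen hB hB0]
  set Vs : Set V := ((↑) : V → Y) ⁻¹' (gs q B) with hVs
  have hcl : Subgroup.closure Vs = ⊤ := by
    rw [hVs]
    clear_value Vs
    clear hVs hω hVb hL hCV hV
    subst hVg
    exact Subgroup.closure_closure_coe_preimage
  have hcard : Nat.card (C.subgroupOf V) = Nat.card C := Nat.card_congr (Subgroup.subgroupOfEquivOfLe hCV).toEquiv
  have hcyc' : IsCyclic (C.subgroupOf V) :=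
    isCyclic_of_surjective (Subgroup.subgroupOfEquivOfLe hCV).symm.toMonoidHom
      (Subgroup.subgroupOfEquivOfLe hCV).symm.surjective
  have hidx : (C.subgroupOf V).index ≤ C.index :=
    Nat.le_of_dvd (Nat.pos_of_ne_zero Subgroup.index_ne_zero_of_finite) (Dvd.intro _ (Subgroup.relIndex_mul_index hCV))
  obtain ⟨l, h1, h2, h3⟩ := SQ6.gen V Vs (C.subgroupOf V) ⟨q s₀ ^ (L % l₁), hω⟩ hcl inferInstance hcyc'
    (by rw [hcard]; exact hsq) (by rw [hcard]; exact hp)
  rw [hcard] at h2
  refine ⟨((l.prod * ⟨q s₀ ^ (L % l₁), hω⟩ : V) : Y), ?_, ?_⟩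
  · have h4 := congrArg (Subgroup.map V.subtype) h3
    rw [MonoidHom.map_zpowers, Subgroup.subgroupOf_map_subtype, inf_eq_left.2 hCV] at h4
    exact h4
  · have hv : ∀ v ∈ gs q B, Sh q l₁ (b * (1 + D)) v 0 := by
      rintro v ⟨c, hc, s, rfl⟩
      have hlen : (B.take c).length = c := by rw [List.length_take]; omega
      have h4 : ∀ s, Sh q l₁ (c + 1) (vl q (B.take c) * q s) (c + 1) := by
        intro s
        have h5 := (Sh.word (q := q) (l1 := l₁) (B.take c)).mul (Sh.letter s)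
        rw [hlen] at h5
        exact h5
      have h5 := (h4 s).mul ((h4 B[c]).inv H)
      have h6 : ((c : ℤ) + 1 + -((c : ℤ) + 1)) = 0 := by ring
      rw [h6] at h5
      refine h5.mono ?_
      have h7 : c + 1 + (c + 1) * D = (c + 1) * (1 + D) := by ring
      rw [h7]
      exact Nat.mul_le_mul_right _ (by omega)
    have hl : ∀ l : List V, (∀ v ∈ l, v ∈ Vs) → Sh q l₁ (l.length * (b * (1 + D))) ((l.prod : V) : Y) 0 := by
      intro l
      induction l with
      | nil =>
        intro _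
        simpa using Sh.one (q := q) (l1 := l₁)
      | cons v l ih =>
        intro hv'
        have h4 := (hv _ (hv' v List.mem_cons_self)).mul (ih fun u hu => hv' u (List.mem_cons_of_mem _ hu))
        rw [List.prod_cons, Subgroup.coe_mul, List.length_cons]
        rw [add_zero] at h4
        exact h4.mono (le_of_eq (by ring))
    have hw : Sh q l₁ (L % l₁) (q s₀ ^ (L % l₁)) L := by
      have h4 := Sh.word (q := q) (l1 := l₁) (List.replicate (L % l₁) s₀)
      have h5 : vl q (List.replicate (L % l₁) s₀) = q s₀ ^ (L % l₁) := by simp [vl]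
      rw [h5, List.length_replicate] at h4
      refine h4.congr ⟨((L / l₁ : ℕ) : ℤ), ?_⟩
      have h6 : ((L % l₁ : ℕ) : ℤ) + (l₁ : ℤ) * ((L / l₁ : ℕ) : ℤ) = L := by exact_mod_cast Nat.mod_add_div L l₁
      linarith
    have h4 := (hl l h1).mul hw
    rw [zero_add] at h4
    rw [Subgroup.coe_mul]
    refine h4.mono ?_
    have h5 : L % l₁ < l₁ := Nat.mod_lt _ hl₁
    have h6 : l.length ≤ ((Nat.card C).primeFactors.card + 2) ^ 2 * (3 * C.index + 3) :=
      h2.trans (Nat.mul_le_mul_left _ (by omega))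
    exact Nat.add_le_add (Nat.mul_le_mul_right _ h6) h5.le

end

end Pool.Agent.Lib.MP_688fd0_co.SQ7.H31
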