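import Pool.Agent.Lib.MP_688fd0_co.SQ7.H31.Gen

/-!
Type C2, B1-FULL, row GEN (helper31, paper by helper25): the generator of `N ∩ V` in the group `G`.

`V` = the group generated by the conjugates (by elements of `T`) of the quotients of letters; `Y = T / Nv`.
-/

set_option autoImplicit false

namespace Pool.Agent.Lib.MP_688fd0_co.SQ7.H31

open Pool.Agent.Lib.MP_688fd0_co.SQ7.H25 (vl vl_nil vl_append vl_cons Wd Sh exists_word)

variable {G : Type} [Group G]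

/-- The columns of `T`. -/
def VT (S : Lets G) (T : Subgroup G) : Subgroup G :=
  Subgroup.closure {x | ∃ y ∈ T, ∃ s s', x = y * (S.sv s * (S.sv s')⁻¹) * y⁻¹}

/-- The letters modulo `Nv`. -/
def qY (S : Lets G) (T Nv : Subgroup G) (hm : ∀ s, S.sv s ∈ T) [(Nv.subgroupOf T).Normal] (s : Lt) :
    T ⧸ Nv.subgroupOf T := QuotientGroup.mk' (Nv.subgroupOf T) (qT S T hm s)

section

variable {S : Lets G} {T N Nv : Subgroup G}

theorem VT_le (hm : ∀ s, S.sv s ∈ T) : VT S T ≤ T := by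
  unfold VT
  rw [Subgroup.closure_le]
  rintro x ⟨y, hy, s, s', rfl⟩
  exact T.mul_mem (T.mul_mem hy (T.mul_mem (hm s) (T.inv_mem (hm s')))) (T.inv_mem hy)

theorem VT_eq (hm : ∀ s, S.sv s ∈ T) : (VT S T).subgroupOf T =
    Subgroup.normalClosure {x : T | ∃ s s', x = qT S T hm s * (qT S T hm s')⁻¹} := by
  set W : Subgroup T := Subgroup.normalClosure {x : T | ∃ s s', x = qT S T hm s * (qT S T hm s')⁻¹} with hW
  apply le_antisymm
  · have h1 : VT S T ≤ W.map T.subtype := by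
      unfold VT
      rw [Subgroup.closure_le]
      rintro x ⟨y, hy, s, s', rfl⟩
      refine ⟨⟨y, hy⟩ * (qT S T hm s * (qT S T hm s')⁻¹) * ⟨y, hy⟩⁻¹, ?_, rfl⟩
      have h2 : qT S T hm s * (qT S T hm s')⁻¹ ∈ W := Subgroup.subset_normalClosure ⟨s, s', rfl⟩
      exact Subgroup.normalClosure_normal.conj_mem _ h2 _
    intro x hx
    obtain ⟨z, hz, hzx⟩ := h1 (Subgroup.mem_subgroupOf.1 hx)
    have h2 : z = x := Subtype.ext hzx
    rw [← h2]; exact hz
  · rw [hW, Subgroup.normalClosure, Subgroup.closure_le]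
    intro x hx
    rw [Group.mem_conjugatesOfSet_iff] at hx
    obtain ⟨a, ⟨s, s', rfl⟩, hx⟩ := hx
    rw [isConj_iff] at hx
    obtain ⟨y, rfl⟩ := hx
    exact Subgroup.mem_subgroupOf.2 (Subgroup.subset_closure ⟨(y : G), y.2, s, s', rfl⟩)

theorem vl_qY (hm : ∀ s, S.sv s ∈ T) [(Nv.subgroupOf T).Normal] (w : List Lt) :
    vl (qY S T Nv hm) w = QuotientGroup.mk' (Nv.subgroupOf T) (w.map (qT S T hm)).prod := by
  unfold vl
  rw [map_list_prod, List.map_map]
  rfl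

theorem vl_one (hm : ∀ s, S.sv s ∈ T) [(Nv.subgroupOf T).Normal] (w : List Lt) (h : (w.map S.sv).prod ∈ Nv) :
    vl (qY S T Nv hm) w = 1 := by
  rw [vl_qY]
  refine (QuotientGroup.eq_one_iff _).2 (Subgroup.mem_subgroupOf.2 ?_)
  rw [coe_qT]; exact h

theorem cl_qY (hm : ∀ s, S.sv s ∈ T) (hT : T = Subgroup.closure (Set.range S.sv)) [(Nv.subgroupOf T).Normal] :
    Subgroup.closure (Set.range (qY S T Nv hm)) = ⊤ := by
  have h1 : Set.range (qY S T Nv hm) = (QuotientGroup.mk' (Nv.subgroupOf T)) '' Set.range (qT S T hm) := by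
    rw [← Set.range_comp]; rfl
  rw [h1, ← MonoidHom.map_closure, cl_qT S T hm hT, ← MonoidHom.range_eq_map, MonoidHom.range_eq_top]
  exact QuotientGroup.mk'_surjective _

theorem VT_map (hm : ∀ s, S.sv s ∈ T) [(Nv.subgroupOf T).Normal] :
    ((VT S T).subgroupOf T).map (QuotientGroup.mk' (Nv.subgroupOf T)) =
      Subgroup.normalClosure {x | ∃ s s', x = qY S T Nv hm s * (qY S T Nv hm s')⁻¹} := by
  rw [VT_eq hm, Subgroup.map_normalClosure _ _ (QuotientGroup.mk'_surjective _)]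
  congr 1
  ext x
  constructor
  · rintro ⟨y, ⟨s, s', rfl⟩, rfl⟩
    exact ⟨s, s', by rw [map_mul, map_inv]; rfl⟩
  · rintro ⟨s, s', rfl⟩
    exact ⟨_, ⟨s, s', rfl⟩, by rw [map_mul, map_inv]; rfl⟩

theorem nor_of_cen (hc : ∀ x ∈ T, ∀ y ∈ Nv, x * y = y * x) : (Nv.subgroupOf T).Normal := by
  refine ⟨fun n hn g => ?_⟩
  have h1 : g * n = n * g := Subtype.ext (hc _ g.2 _ (Subgroup.mem_subgroupOf.1 hn))
  rw [h1, mul_inv_cancel_right]
  exact hn

/-- The words modulo `Nv`. -/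
theorem WDat.wd [Finite G] {Q μ₀ : ℕ} (H : WDat S T N Nv Q μ₀) (hc : ∀ x ∈ T, ∀ y ∈ Nv, x * y = y * x)
    [(Nv.subgroupOf T).Normal] :
    Wd (qY S T Nv H.mem) (4 * (N.subgroupOf T).index) (4 * (N.subgroupOf T).index * μ₀) := by
  refine ⟨fun d hd hdd => ?_, fun s => ?_⟩
  · obtain ⟨w, h1, h2⟩ := H.cl d hd hdd
    exact ⟨w, h1, vl_one H.mem w h2⟩
  · obtain ⟨w, h1, h2, h3⟩ := H.inv hc s
    refine ⟨w, h1, h2, ?_⟩
    have h4 : ((s :: w).map S.sv).prod ∈ Nv := by rw [List.map_cons, List.prod_cons]; exact h3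
    have h5 := vl_one H.mem _ h4
    rw [vl_cons] at h5
    exact eq_inv_of_mul_eq_one_right h5

/-- The bound. -/
def bdG (κ r μ₀ : ℕ) : ℕ := (r + 2) ^ 2 * (3 * κ + 3) * (4 * κ * μ₀ * (1 + 4 * κ * μ₀)) + 4 * κ

/-- **GEN**: the generator of `N ∩ V`. -/
theorem WDat.gen_g [Finite G] {Q μ₀ : ℕ} (H : WDat S T N Nv Q μ₀) (hle : Nv ≤ N) (hc : ∀ x ∈ T, ∀ y ∈ Nv, x * y = y * x)
    (hcyc : IsCyclic N) (hsq : Squarefree (Nat.card N)) (hcop : (Nat.card N).Coprime (4 * (N.subgroupOf T).index))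
    (hVN : ∀ x ∈ VT S T, x ∈ Nv → x = 1)
    (hp : ∀ p ∈ (Nat.card (N ⊓ VT S T : Subgroup G)).primeFactors,
      (Nat.card (N ⊓ VT S T : Subgroup G)).primeFactors.card + 1 < p)
    (s₀ : Lt) (L : ℕ) (hL : S.sv s₀ ^ L ∈ VT S T) :
    ∃ g, Subgroup.zpowers g = N ⊓ VT S T ∧ ∃ w : List Lt,
      w.length ≤ bdG (N.subgroupOf T).index (Nat.card (N ⊓ VT S T : Subgroup G)).primeFactors.card μ₀ ∧
      w.length ≡ L [MOD 4 * (N.subgroupOf T).index] ∧ ((w.map S.sv).prod)⁻¹ * g ∈ Nv := by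
  have hNvn := nor_of_cen hc
  have hN'n := H.nor
  set Nv' := Nv.subgroupOf T with hNv'
  set N' := N.subgroupOf T with hN'
  set V' := (VT S T).subgroupOf T with hV'
  set π := QuotientGroup.mk' Nv' with hπ
  have hπs : Function.Surjective π := QuotientGroup.mk'_surjective _
  set q := qY S T Nv H.mem with hq
  have hVm : ∀ s, S.sv s ∈ T := H.mem
  have hgen : Subgroup.closure (Set.range q) = ⊤ := cl_qY H.mem H.gen
  obtain ⟨B, hB1, -, hB2⟩ := H.circ μ₀ le_rfl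
  have hκ : 0 < N'.index := Nat.pos_of_ne_zero Subgroup.index_ne_zero_of_finite
  have hB : vl q B = 1 := vl_one H.mem B hB2
  have hμ : 0 < μ₀ := by
    rcases Nat.eq_zero_or_pos μ₀ with h | h
    · exact absurd h.le fun h' => H.mu_pos h'
    · exact h
  have hl₁ : 0 < 4 * N'.index := by positivity
  have hB0 : 0 < B.length := by rw [hB1]; positivity
  have hW : Wd q (4 * N'.index) (4 * N'.index * μ₀) := H.wd hc
  have hVY : V'.map π = Subgroup.normalClosure {x | ∃ s s', x = q s * (q s')⁻¹} := VT_map H.mem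
  have hle' : Nv' ≤ N' := fun x hx => Subgroup.mem_subgroupOf.2 (hle (Subgroup.mem_subgroupOf.1 hx))
  have hmk : ∀ x y : T, π x = π y ↔ x⁻¹ * y ∈ Nv' := fun x y => QuotientGroup.eq
  -- the image of `N`
  set NY := N'.map π with hNY
  have hNYn : NY.Normal := hN'n.map π hπs
  have hN'cyc : IsCyclic N' := by
    have h1 : IsCyclic (N ⊓ T : Subgroup G) := by
      refine isCyclic_of_injective (Subgroup.inclusion (inf_le_left : N ⊓ T ≤ N)) (Subgroup.inclusion_injective _)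
    have h2 : N' = (N ⊓ T).subgroupOf T := by rw [hN', Subgroup.inf_subgroupOf_right]
    rw [h2]
    exact isCyclic_of_surjective (Subgroup.subgroupOfEquivOfLe (inf_le_right : N ⊓ T ≤ T)).symm.toMonoidHom
      (Subgroup.subgroupOfEquivOfLe _).symm.surjective
  have hNYcyc : IsCyclic NY := isCyclic_of_surjective (π.subgroupMap N') (π.subgroupMap_surjective N')
  have hNYcard : Nat.card NY ∣ Nat.card N := by
    have h1 : Nat.card NY ∣ Nat.card N' := Subgroup.card_map_dvd N' π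
    have h2 : Nat.card N' ∣ Nat.card N := by
      have h3 : N' = (N ⊓ T).subgroupOf T := by rw [hN', Subgroup.inf_subgroupOf_right]
      rw [h3, Nat.card_congr (Subgroup.subgroupOfEquivOfLe (inf_le_right : N ⊓ T ≤ T)).toEquiv]
      exact Subgroup.card_dvd_of_le inf_le_left
    exact h1.trans h2
  have hNYidx : NY.index = N'.index := Subgroup.index_map_eq _ hπs (by rw [hπ, QuotientGroup.ker_mk']; exact hle')
  -- `NY ≤ V'.map π`
  have hNV : NY ≤ V'.map π := by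
    intro y hy
    have hVn : (V'.map π).Normal := by rw [hVY]; exact Subgroup.normalClosure_normal
    obtain ⟨w, -, hw⟩ := exists_word hgen y
    have h1 := word_pow hgen hB hB0 w s₀
    rw [hw, ← hVY] at h1
    have h2 : q s₀ ^ (4 * N'.index) ∈ V'.map π := by rw [hVY]; exact pow_l hgen hB hB0 hW s₀
    have h3 : y ^ (4 * N'.index) ∈ V'.map π := by
      rw [← QuotientGroup.eq_one_iff (N := V'.map π), QuotientGroup.mk_pow]
      have h4 : (y : (T ⧸ Nv') ⧸ V'.map π) = ((q s₀ : T ⧸ Nv') : (T ⧸ Nv') ⧸ V'.map π) ^ w.length := by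
        rw [← QuotientGroup.mk_pow, eq_comm, QuotientGroup.eq]
        have h5 := hVn.conj_mem _ h1 (q s₀ ^ w.length)⁻¹
        rw [inv_inv, mul_assoc, inv_mul_cancel_right] at h5
        exact h5
      rw [h4, ← pow_mul, mul_comm, pow_mul, ← QuotientGroup.mk_pow, (QuotientGroup.eq_one_iff _).2 h2, one_pow]
    have h4 : (4 * N'.index).Coprime (orderOf y) := by
      have h5 : orderOf y ∣ Nat.card NY := by
        have := orderOf_dvd_natCard (⟨y, hy⟩ : NY)
        rwa [Subgroup.orderOf_mk] at this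
      exact (Nat.Coprime.coprime_dvd_left (h5.trans hNYcard) hcop).symm
    obtain ⟨m, hm⟩ := exists_pow_eq_self_of_coprime h4
    rw [← hm]
    exact Subgroup.pow_mem _ h3 m
  -- `N ∩ V` and `NY`
  have hlift : ∀ y ∈ NY, ∃ v : T, v ∈ N' ∧ v ∈ V' ∧ π v = y := by
    intro y hy
    obtain ⟨v, hv, hvy⟩ := hNV hy
    obtain ⟨n, hn, hny⟩ := hy
    refine ⟨v, ?_, hv, hvy⟩
    have h1 : n⁻¹ * v ∈ Nv' := (hmk n v).1 (hny.trans hvy.symm)
    have h2 := N'.mul_mem hn (hle' h1)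
    rwa [mul_inv_cancel_left] at h2
  have hinj : ∀ u v : T, u ∈ V' → v ∈ V' → π u = π v → u = v := by
    intro u v hu hv huv
    have h1 := (hmk u v).1 huv
    have h2 : u⁻¹ * v ∈ V' := V'.mul_mem (V'.inv_mem hu) hv
    have h3 := hVN _ (Subgroup.mem_subgroupOf.1 h2) (Subgroup.mem_subgroupOf.1 h1)
    have h4 : u⁻¹ * v = 1 := Subtype.ext h3
    exact (inv_mul_eq_one.1 h4)
  have hcard : Nat.card NY = Nat.card (N ⊓ VT S T : Subgroup G) := by
    have hmem : ∀ x : (N ⊓ VT S T : Subgroup G), (x : G) ∈ T := fun x => VT_le H.mem x.2.2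
    refine (Nat.card_congr (Equiv.ofBijective (fun x : (N ⊓ VT S T : Subgroup G) =>
      (⟨π ⟨x, hmem x⟩, ⟨⟨x, hmem x⟩, Subgroup.mem_subgroupOf.2 x.2.1, rfl⟩⟩ : NY)) ⟨?_, ?_⟩)).symm
    · intro x y hxy
      have h1 := hinj ⟨x, hmem x⟩ ⟨y, hmem y⟩ (Subgroup.mem_subgroupOf.2 x.2.2) (Subgroup.mem_subgroupOf.2 y.2.2)
        (congrArg Subtype.val hxy)
      have h2 : (x : G) = y := congrArg (fun z : T => (z : G)) h1
      exact Subtype.ext h2
    · rintro ⟨y, hy⟩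
      obtain ⟨v, h1, h2, h3⟩ := hlift y hy
      exact ⟨⟨(v : G), Subgroup.mem_subgroupOf.1 h1, Subgroup.mem_subgroupOf.1 h2⟩, Subtype.ext h3⟩
  -- the generator
  have hLY : q s₀ ^ L ∈ V'.map π :=
    ⟨(qT S T H.mem s₀) ^ L, Subgroup.mem_subgroupOf.2 hL, by rw [map_pow]; rfl⟩
  obtain ⟨gY, hg1, hg2⟩ := gen_y hgen hB hB0 hl₁ hW (V'.map π) hVY NY hNYn hNV hNYcyc (hsq.squarefree_of_dvd hNYcard)
    (by rw [hcard]; exact hp) s₀ L hLY
  obtain ⟨v, hv1, hv2, hv3⟩ := hlift gY (by rw [← hg1]; exact Subgroup.mem_zpowers gY)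
  refine ⟨(v : G), ?_, ?_⟩
  · apply le_antisymm
    · rw [Subgroup.zpowers_le]
      exact ⟨Subgroup.mem_subgroupOf.1 hv1, Subgroup.mem_subgroupOf.1 hv2⟩
    · rintro x ⟨hx1, hx2⟩
      have hxT : x ∈ T := VT_le H.mem hx2
      have h1 : π ⟨x, hxT⟩ ∈ NY := ⟨⟨x, hxT⟩, Subgroup.mem_subgroupOf.2 hx1, rfl⟩
      rw [← hg1] at h1
      obtain ⟨j, hj⟩ := Subgroup.mem_zpowers_iff.1 h1
      rw [← hv3, ← map_zpow] at hj
      have h2 := hinj (v ^ j) ⟨x, hxT⟩ (V'.zpow_mem hv2 j) (Subgroup.mem_subgroupOf.2 hx2) hj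
      have h3 : (v : G) ^ j = x := by
        have h4 := congrArg (fun z : T => (z : G)) h2
        simpa using h4
      exact Subgroup.mem_zpowers_iff.2 ⟨j, h3⟩
  · obtain ⟨w, hw1, hw2, hw3⟩ := hg2
    rw [hcard, hNYidx, hB1] at hw1
    refine ⟨w, hw1, (Nat.modEq_iff_dvd).2 hw2, ?_⟩
    rw [hq, vl_qY, ← hv3] at hw3
    have h1 := Subgroup.mem_subgroupOf.1 ((hmk _ _).1 hw3)
    rw [Subgroup.coe_mul, Subgroup.coe_inv, coe_qT] at h1
    exact h1

end

end Pool.Agent.Lib.MP_688fd0_co.SQ7.H31
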