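import Pool.Agent.Lib.MP_688fd0_co.SQ7.Iface
import Pool.Agent.Lib.MP_688fd0_co.SQ7.H25.Circ
import Pool.Agent.Lib.MP_688fd0_co.SQ7.H41.Lam2

/-!
Type C2, B1-FULL, row WRD (helper31, paper by helper25): the transparent word (structure `Run`) and the closed words (fields
`cl`, `inv` of `Wrd`) for `l₁ = 4 κ`, `κ = [T : N ∩ T]`.

The input from the structure of the group is `WDat` (helper71's version: the value of the transparent word lies in `Nv` only
after the `Q`-th power; closed words have multiplicities). `lam_pairs'` is the case of equal multiplicities, from the structure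
`GNE` of the group generated by the letters.
-/

set_option autoImplicit false

namespace Pool.Agent.Lib.MP_688fd0_co.SQ7.H31

open Pool.Agent.Lib.MP_688fd0_co.SQ7.H90 (Bal exists_bal exists_lam)

variable {G : Type} [Group G]

/-! ### The letters in the group `T` -/

/-- The letters in the group `T`. -/
def qT (S : Lets G) (T : Subgroup G) (hm : ∀ s, S.sv s ∈ T) (s : Lt) : T := ⟨S.sv s, hm s⟩

theorem coe_qT (S : Lets G) (T : Subgroup G) (hm : ∀ s, S.sv s ∈ T) (w : List Lt) :
    (((w.map (qT S T hm)).prod : T) : G) = (w.map S.sv).prod := by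
  induction w with
  | nil => rfl
  | cons s w ih => rw [List.map_cons, List.prod_cons, Subgroup.coe_mul, ih, List.map_cons, List.prod_cons]; rfl

theorem cl_qT (S : Lets G) (T : Subgroup G) (hm : ∀ s, S.sv s ∈ T) (hT : T = Subgroup.closure (Set.range S.sv)) :
    Subgroup.closure (Set.range (qT S T hm)) = ⊤ := by
  have h1 : Set.range (qT S T hm) = ((↑) : T → G) ⁻¹' (Set.range S.sv) := by
    ext ⟨x, hx⟩
    constructor
    · rintro ⟨s, hs⟩; exact ⟨s, congrArg Subtype.val hs⟩
    · rintro ⟨s, hs⟩; exact ⟨s, Subtype.ext hs⟩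
  rw [h1]
  subst hT
  exact Subgroup.closure_closure_coe_preimage

/-- The other hole letter. -/
def fltP : Equiv.Perm Lt where
  toFun := flt
  invFun := flt
  left_inv := fun x => by obtain ⟨a, b⟩ := x; simp [flt]
  right_inv := fun x => by obtain ⟨a, b⟩ := x; simp [flt]

theorem beq_eq : (instBEqProd : BEq Lt) = instBEqOfDecidableEq := lawful_beq_subsingleton _ _

theorem card_Lt : Nat.card Lt = 4 := by
  rw [Nat.card_eq_fintype_card]; rfl

theorem pw_list (f : Lt → G) (B : List Lt) :
    H25.pw (fun n => f (B.getD (n % B.length) (false, false))) B.length = (B.map f).prod := by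
  rw [H25.pw_eq_prod]
  congr 1
  apply List.ext_getElem
  · simp
  · intro i h1 h2
    have h3 : i < B.length := by simpa using h2
    rw [List.getElem_map, List.getElem_map, List.getElem_range, Nat.mod_eq_of_lt h3, List.getD_eq_getElem _ _ h3]

/-! ### Circuits with multiplicities -/

/-- Counting in the image of a list. -/
theorem count_map_sum {Λ Z : Type*} [Fintype Λ] [DecidableEq Λ] [DecidableEq Z] (f : Λ → Z) (B : List Λ) (x : Z) :
    (B.map f).count x = ∑ s, B.count s * (if f s = x then 1 else 0) := by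
  induction B with
  | nil => simp
  | cons a B ih =>
    rw [List.map_cons, List.count_cons, ih]
    have h2 : ∀ s, (a :: B).count s * (if f s = x then 1 else 0) =
        B.count s * (if f s = x then 1 else 0) + (if s = a then (if f s = x then 1 else 0) else 0) := by
      intro s
      rw [List.count_cons, add_mul]
      congr 1
      by_cases h : s = a
      · subst h; simp
      · have : (a == s) = false := by simpa using fun h' => h (Eq.symm h')
        rw [this, if_neg h]; simp
    rw [Finset.sum_congr rfl fun s _ => h2 s, Finset.sum_add_distrib]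
    congr 1
    rw [Finset.sum_ite_eq' Finset.univ a]
    simp [beq_iff_eq]

/-- **The circuit with multiplicities**: a word in which the label `s` occurs `κ * m s` times, with a central value in
`N`. -/
theorem exists_mul {S : Lets G} {T N : Subgroup G} [Finite G] (hT : T = Subgroup.closure (Set.range S.sv))
    (hN : N.Normal) (hab : ∀ x ∈ N, ∀ y ∈ N, x * y = y * x) (m : Lt → ℕ) (hm : ∀ s, 0 < m s) :
    ∃ B : List Lt, (∀ s, B.count s = (N.subgroupOf T).index * m s) ∧
      B.length = (N.subgroupOf T).index * ∑ s, m s ∧ (B.map S.sv).prod ∈ N ∧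
      (∀ x ∈ T, x * (B.map S.sv).prod = (B.map S.sv).prod * x) := by
  classical
  have hmem : ∀ s, S.sv s ∈ T := fun s => by rw [hT]; exact Subgroup.subset_closure ⟨s, rfl⟩
  set q' : (Σ s : Lt, Fin (m s)) → T := fun s => qT S T hmem s.1 with hq'
  have hcl : Subgroup.closure (Set.range q') = ⊤ := by
    have h1 : Set.range q' = Set.range (qT S T hmem) := by
      ext x
      constructor
      · rintro ⟨s, rfl⟩; exact ⟨s.1, rfl⟩
      · rintro ⟨s, rfl⟩; exact ⟨⟨s, ⟨0, hm s⟩⟩, rfl⟩
    rw [h1]; exact cl_qT S T hmem hT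
  have hN' : (N.subgroupOf T).Normal := inferInstance
  have hab' : ∀ x ∈ N.subgroupOf T, ∀ y ∈ N.subgroupOf T, x * y = y * x := fun x hx y hy =>
    Subtype.ext (hab x (Subgroup.mem_subgroupOf.1 hx) y (Subgroup.mem_subgroupOf.1 hy))
  have : Nonempty (Σ s : Lt, Fin (m s)) := ⟨⟨(false, false), ⟨0, hm _⟩⟩⟩
  obtain ⟨B', hB⟩ := exists_bal (N.subgroupOf T) hN' q' hcl 1 [] (by simp)
  rw [List.nil_append] at hB
  have hval : (((B'.map q').prod : T) : G) = ((B'.map Sigma.fst).map S.sv).prod := by
    rw [← coe_qT S T hmem, List.map_map]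
    rfl
  refine ⟨B'.map Sigma.fst, fun s => ?_, ?_, ?_, ?_⟩
  · rw [beq_eq, count_map_sum]
    have h1 : ∀ u : (Σ s : Lt, Fin (m s)), B'.count u = (N.subgroupOf T).index := fun u => by
      have := hB.count hN' u
      rwa [one_mul] at this
    simp only [h1]
    rw [← Finset.mul_sum]
    congr 1
    rw [Fintype.sum_sigma]
    have h2 : ∀ s' : Lt, (∑ _i : Fin (m s'), if s' = s then 1 else 0) = if s' = s then m s' else 0 := by
      intro s'
      by_cases h : s' = s
      · simp [h]
      · simp [h]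
    rw [Finset.sum_congr rfl fun s' _ => h2 s', Finset.sum_ite_eq']
    simp
  · rw [List.length_map, hB.length hN', one_mul, Nat.card_eq_fintype_card, Fintype.card_sigma]
    simp
  · rw [← hval]
    exact Subgroup.mem_subgroupOf.1 hB.one
  · intro x hx
    have h1 := (H25.circ_val (N.subgroupOf T) hN' q' hcl hab' hB hB).2 ⟨x, hx⟩
    rw [← hval]
    exact congrArg Subtype.val h1

/-! ### The words -/

/-- The data: `κ = [T : N ∩ T]`; the `Q`-th power of the value of a word in which all labels occur equally often lies in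
`Nv`; for every `μ ≥ μ₀` there are multiplicities `m` with the sum `4 μ` such that the value of a word with `κ * m s` labels
`s` lies in `Nv` (all this for central values in `N`). -/
structure WDat (S : Lets G) (T N Nv : Subgroup G) (Q μ₀ : ℕ) : Prop where
  gen : T = Subgroup.closure (Set.range S.sv)
  nN : N.Normal
  ab : ∀ x ∈ N, ∀ y ∈ N, x * y = y * x
  Qpos : 0 < Q
  lamQ : ∀ (B : List Lt) (M : ℕ), (∀ s, B.count s = M) → (B.map S.sv).prod ∈ N →
    (∀ x ∈ T, x * (B.map S.sv).prod = (B.map S.sv).prod * x) → (B.map S.sv).prod ^ Q ∈ Nv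
  mult : ∀ μ, μ₀ ≤ μ → ∃ m : Lt → ℕ, (∀ s, 0 < m s) ∧ ∑ s, m s = 4 * μ ∧
    ∀ B : List Lt, (∀ s, B.count s = (N.subgroupOf T).index * m s) → (B.map S.sv).prod ∈ N →
      (∀ x ∈ T, x * (B.map S.sv).prod = (B.map S.sv).prod * x) → (B.map S.sv).prod ∈ Nv

namespace WDat

variable {S : Lets G} {T N Nv : Subgroup G} {Q μ₀ : ℕ} (H : WDat S T N Nv Q μ₀)

include H

theorem mem (s : Lt) : S.sv s ∈ T := by
  rw [H.gen]; exact Subgroup.subset_closure ⟨s, rfl⟩

theorem ab' : ∀ x ∈ N.subgroupOf T, ∀ y ∈ N.subgroupOf T, x * y = y * x := fun x hx y hy =>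
  Subtype.ext (H.ab x (Subgroup.mem_subgroupOf.1 hx) y (Subgroup.mem_subgroupOf.1 hy))

theorem nor : (N.subgroupOf T).Normal := by
  have := H.nN
  infer_instance

/-- The value of a balanced walk. -/
theorem bal [Finite G] {M : ℕ} {B : List Lt} (h : Bal (N.subgroupOf T) (qT S T H.mem) M B) :
    (B.map S.sv).prod ∈ N ∧ (∀ x ∈ T, x * (B.map S.sv).prod = (B.map S.sv).prod * x) ∧
      (B.map S.sv).prod ^ Q ∈ Nv := by
  have h1 : (B.map S.sv).prod ∈ N := by
    have := Subgroup.mem_subgroupOf.1 h.one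
    rwa [coe_qT] at this
  have h2 : ∀ x ∈ T, x * (B.map S.sv).prod = (B.map S.sv).prod * x := by
    intro x hx
    have h3 := (H25.circ_val (N.subgroupOf T) H.nor (qT S T H.mem) (cl_qT S T H.mem H.gen) H.ab' h h).2 ⟨x, hx⟩
    have h4 := congrArg Subtype.val h3
    rw [Subgroup.coe_mul, Subgroup.coe_mul, coe_qT] at h4
    exact h4
  refine ⟨h1, h2, H.lamQ B (M * (N.subgroupOf T).index) (fun s => ?_) h1 h2⟩
  rw [beq_eq]
  exact h.count H.nor s

/-- **RUN**: the transparent word. -/
theorem run [Finite G] : ∃ (l : ℕ) (r : ℕ → Lt) (lam : G), SQ7.Run S T l r lam ∧ lam ∈ N ∧ lam ^ Q ∈ Nv ∧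
    4 * (N.subgroupOf T).index ∣ l ∧ l ≤ 4 * (N.subgroupOf T).index ^ 2 := by
  obtain ⟨M, B, hM, hMk, hB, hB'⟩ := H25.exists_circ (N.subgroupOf T) H.nor (qT S T H.mem)
    (cl_qT S T H.mem H.gen) fltP
  have hlen := hB.length H.nor
  rw [card_Lt] at hlen
  have hk : 0 < (N.subgroupOf T).index := Nat.pos_of_ne_zero Subgroup.index_ne_zero_of_finite
  obtain ⟨hv, -⟩ := H25.circ_val (N.subgroupOf T) H.nor (qT S T H.mem) (cl_qT S T H.mem H.gen) H.ab' hB hB'
  have hv' := congrArg Subtype.val hv
  rw [coe_qT, coe_qT] at hv'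
  have hb := H.bal hB
  refine ⟨B.length, fun n => B.getD (n % B.length) (false, false), (B.map S.sv).prod, ⟨?_, ?_, ?_, ?_, hb.2.1⟩, hb.1,
    hb.2.2, ⟨M, by rw [hlen]; ring⟩, ?_⟩
  · rw [hlen]; positivity
  · intro n; simp only [Nat.add_mod_left]
  · exact pw_list S.sv B
  · have h1 := pw_list (fun s => S.sv (flt s)) B
    rw [hv', List.map_map]
    exact h1
  · rw [hlen]
    calc M * ((N.subgroupOf T).index * 4) ≤ (N.subgroupOf T).index * ((N.subgroupOf T).index * 4) :=
          Nat.mul_le_mul_right _ hMk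
      _ = 4 * (N.subgroupOf T).index ^ 2 := by ring

/-- The closed words. -/
theorem circ [Finite G] (μ : ℕ) (hμ : μ₀ ≤ μ) : ∃ B : List Lt, B.length = 4 * (N.subgroupOf T).index * μ ∧
    (∀ s, s ∈ B) ∧ (B.map S.sv).prod ∈ Nv := by
  have hk : 0 < (N.subgroupOf T).index := Nat.pos_of_ne_zero Subgroup.index_ne_zero_of_finite
  obtain ⟨m, h1, h2, h3⟩ := H.mult μ hμ
  obtain ⟨B, h4, h5, h6, h7⟩ := exists_mul H.gen H.nN H.ab m h1
  refine ⟨B, by rw [h5, h2]; ring, fun s => ?_, h3 B h4 h6 h7⟩
  rw [← List.count_pos_iff, h4]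
  exact Nat.mul_pos hk (h1 s)

theorem mu_pos (hμ : μ₀ ≤ 0) : False := by
  obtain ⟨m, h1, h2, -⟩ := H.mult 0 hμ
  have h3 : m (false, false) ≤ ∑ s, m s := Finset.single_le_sum (fun _ _ => Nat.zero_le _) (Finset.mem_univ _)
  have := h1 (false, false)
  omega

/-- **W1**. -/
theorem cl [Finite G] (k : ℕ) (hk : 4 * (N.subgroupOf T).index * μ₀ ≤ k) (hd : 4 * (N.subgroupOf T).index ∣ k) :
    ∃ w : List Lt, w.length = k ∧ (w.map S.sv).prod ∈ Nv := by
  obtain ⟨μ, rfl⟩ := hd
  have hκ : 0 < 4 * (N.subgroupOf T).index :=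
    Nat.mul_pos (by norm_num) (Nat.pos_of_ne_zero Subgroup.index_ne_zero_of_finite)
  obtain ⟨B, h1, -, h2⟩ := H.circ μ (Nat.le_of_mul_le_mul_left hk hκ)
  exact ⟨B, h1, h2⟩

/-- **W2**. -/
theorem inv [Finite G] (hc : ∀ x ∈ T, ∀ y ∈ Nv, x * y = y * x) (s : Lt) :
    ∃ w : List Lt, w.length ≤ 4 * (N.subgroupOf T).index * μ₀ ∧ 4 * (N.subgroupOf T).index ∣ w.length + 1 ∧
      S.sv s * (w.map S.sv).prod ∈ Nv := by
  obtain ⟨B, h1, h2, h3⟩ := H.circ μ₀ le_rfl
  obtain ⟨u, v, rfl⟩ := List.append_of_mem (h2 s)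
  rw [List.length_append, List.length_cons] at h1
  refine ⟨v ++ u, by rw [List.length_append]; omega, ?_, ?_⟩
  · refine ⟨μ₀, ?_⟩
    rw [← h1, List.length_append]
    ring
  · have hu : (u.map S.sv).prod ∈ T := by
      refine T.list_prod_mem fun x hx => ?_
      obtain ⟨y, -, rfl⟩ := List.mem_map.1 hx
      exact H.mem y
    have h4 := hc _ (T.inv_mem hu) _ h3
    rw [List.map_append, List.prod_append, List.map_cons, List.prod_cons] at h3 h4
    rw [List.map_append, List.prod_append]
    have h5 : S.sv s * ((v.map S.sv).prod * (u.map S.sv).prod) =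
        (u.map S.sv).prod⁻¹ * ((u.map S.sv).prod * (S.sv s * (v.map S.sv).prod)) * (u.map S.sv).prod := by group
    rw [h5, h4, inv_mul_cancel_right]
    exact h3

end WDat

/-! ### The input from the structure of the group -/

/-- The letters with their inverses. -/
structure LSym (S : Lets G) : Prop where
  al : ∃ π : Equiv.Perm Bool, ∀ i, (S.al i)⁻¹ = S.al (π i)
  be : ∃ π : Equiv.Perm Bool, ∀ i, (S.be i)⁻¹ = S.be (π i)

theorem perm_of_sym (a : Bool → G) (h : ∀ i, ∃ j, (a i)⁻¹ = a j) : ∃ π : Equiv.Perm Bool, ∀ i, (a i)⁻¹ = a (π i) := by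
  by_cases h0 : (a false)⁻¹ = a false
  · refine ⟨1, fun i => ?_⟩
    rw [Equiv.Perm.one_apply]
    cases i with
    | false => exact h0
    | true =>
      obtain ⟨j, hj⟩ := h true
      cases j with
      | false => rw [hj, ← h0, ← hj, inv_inv] 
      | true => exact hj
  · obtain ⟨j, hj⟩ := h false
    cases j with
    | false => exact absurd hj h0
    | true =>
      refine ⟨Equiv.swap false true, fun i => ?_⟩
      cases i with
      | false => rw [Equiv.swap_apply_left]; exact hj
      | true => rw [Equiv.swap_apply_right, ← hj, inv_inv]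

/-- The number of places with a given letter. -/
theorem count_lt {Z : Type*} [DecidableEq Z] (f : Lt → Z) (B : List Lt) {M : ℕ} (hB : ∀ s, B.count s = M) (x : Z) :
    (B.map f).count x = M * (Finset.univ.filter fun s => f s = x).card := by
  rw [count_map_sum]
  rw [beq_eq] at hB
  simp only [hB]
  rw [← Finset.mul_sum, Finset.card_filter]

/-- **LAM** for the labels of one level. -/
theorem lam_pairs' [Finite G] {N C : Subgroup G} {eps : G →* ℤˣ} {k P : ℕ} (h : SQ2.H41.GNE N C eps k P) (S : Lets G)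
    (hS : LSym S) (B : List Lt) (M : ℕ) (hB : ∀ s, B.count s = M) (hN : (B.map S.sv).prod ∈ N)
    (hc : ∀ x, eps x = 1 → x * (B.map S.sv).prod = (B.map S.sv).prod * x) :
    (orderOf (B.map S.sv).prod).Coprime (Nat.card C) := by
  classical
  have h0 : (B.map S.sv).prod = ((B.map fun s => (S.al s.1, S.be s.2)).map fun s => s.1 * s.2⁻¹).prod := by
    rw [List.map_map]; rfl
  rw [h0] at hN hc ⊢
  refine H41.lam_pairs h _ (fun x => ?_) (fun x => ?_) hN hc
  · rw [List.map_map]
    obtain ⟨π, hπ⟩ := hS.al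
    rw [count_lt _ B hB, count_lt _ B hB]
    congr 1
    refine Finset.card_bij (fun s _ => (π s.1, s.2)) ?_ ?_ ?_
    · intro s hs
      rw [Finset.mem_filter] at hs ⊢
      refine ⟨Finset.mem_univ _, ?_⟩
      have h1 : S.al s.1 = x := hs.2
      show S.al (π s.1) = x⁻¹
      rw [← hπ, h1]
    · intro s _ t _ hst
      have h1 := congrArg Prod.fst hst
      have h2 := congrArg Prod.snd hst
      exact Prod.ext (π.injective h1) h2
    · intro s hs
      rw [Finset.mem_filter] at hs
      have h1 : S.al s.1 = x⁻¹ := hs.2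
      refine ⟨(π.symm s.1, s.2), Finset.mem_filter.2 ⟨Finset.mem_univ _, ?_⟩, ?_⟩
      · show S.al (π.symm s.1) = x
        rw [← inv_inj, hπ, Equiv.apply_symm_apply, h1]
      · show (π (π.symm s.1), s.2) = s
        rw [Equiv.apply_symm_apply]
  · rw [List.map_map]
    obtain ⟨π, hπ⟩ := hS.be
    rw [count_lt _ B hB, count_lt _ B hB]
    congr 1
    refine Finset.card_bij (fun s _ => (s.1, π s.2)) ?_ ?_ ?_
    · intro s hs
      rw [Finset.mem_filter] at hs ⊢
      refine ⟨Finset.mem_univ _, ?_⟩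
      have h1 : S.be s.2 = x := hs.2
      show S.be (π s.2) = x⁻¹
      rw [← hπ, h1]
    · intro s _ t _ hst
      have h1 := congrArg Prod.fst hst
      have h2 := congrArg Prod.snd hst
      exact Prod.ext h1 (π.injective h2)
    · intro s hs
      rw [Finset.mem_filter] at hs
      have h1 : S.be s.2 = x⁻¹ := hs.2
      refine ⟨(s.1, π.symm s.2), Finset.mem_filter.2 ⟨Finset.mem_univ _, ?_⟩, ?_⟩
      · show S.be (π.symm s.2) = x
        rw [← inv_inj, hπ, Equiv.apply_symm_apply, h1]
      · show (s.1, π (π.symm s.2)) = s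
        rw [Equiv.apply_symm_apply]

end Pool.Agent.Lib.MP_688fd0_co.SQ7.H31
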