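import Pool.Agent.Lib.MP_688fd0_co.SQ7.H31.WrdF
import Pool.Agent.Lib.MP_688fd0_co.SQ7.H24.One
import Pool.Agent.Lib.MP_688fd0_co.SQ7.H90.Mul3

/-!
Type C2, B1-FULL, row WRD (helper31): **`WrdS`** (with the words with multiplicities of helper90 and the case `N ⊓ V = 1` of
helper24).
-/

set_option autoImplicit false

namespace Pool.Agent.Lib.MP_688fd0_co.SQ7.H31

theorem oneS : OneS := fun _ _ _ _ _ _ _ _ _ _ _ _ _ _ _ _ _ hD h1 => H24.one hD h1

theorem wdatS : WdatS := fun _ _ _ _ _ _ _ _ _ _ _ _ _ _ _ _ _ _ hR hD => H90.wdat hD hR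

/-- **ROW WRD.** -/
theorem wrdS : WrdS := wrd_of wdatS oneS

end Pool.Agent.Lib.MP_688fd0_co.SQ7.H31
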