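import Pool.Agent.Lib.MP_688fd0_co.SQ7.IfaceG
import Pool.Agent.Lib.MP_688fd0_co.SQ7.H31.Gen2

/-!
Type C2, B1-FULL, row WRD (helper31, paper by helper25 and helper71): `WrdS` from the two statements `WdatS` (helper90) and
`OneS` (the case `N ⊓ V = 1`).
-/

set_option autoImplicit false

namespace Pool.Agent.Lib.MP_688fd0_co.SQ7.H31

open Pool.Agent.Lib.MP_688fd0_co.OSF

variable {G : Type} [Group G]

/-- The words with multiplicities (helper90). -/
def WdatS : Prop :=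
  ∀ c₁ : ℕ, ∀ (G : Type) [Group G] [Finite G] (N C : Subgroup G) (eps : G →* ℤˣ) (k P : ℕ) (A : Set G) (S : Lets G)
    (D : Set G) (T V Nv : Subgroup G) (L δ : ℕ) (lev : G → ZMod L), SQD.Refl N C eps k P A c₁ →
    Dat N C eps k P A S D T V Nv L δ lev →
    ∃ Q, 0 < Q ∧ Q ≤ 2 ^ ((k + (Nat.card G).primeFactorsList.length) ^ (c₁ + 1)) ∧ WDat S T N Nv Q Q

/-- The words in the case `N ⊓ V = 1`. -/
def OneS : Prop :=
  ∀ (G : Type) [Group G] [Finite G] (N C : Subgroup G) (eps : G →* ℤˣ) (k P : ℕ) (A : Set G) (S : Lets G)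
    (D : Set G) (T V Nv : Subgroup G) (L δ : ℕ) (lev : G → ZMod L),
    Dat N C eps k P A S D T V Nv L δ lev → Nat.card (N ⊓ V : Subgroup G) = 1 →
    (∀ m, (N.subgroupOf T).index * ((N.subgroupOf T).index + 1) + δ ≤ m → δ ∣ m →
      ∃ w : List Lt, w.length = m ∧ (w.map S.sv).prod ∈ Nv) ∧
    ∀ s : Lt, ∃ w : List Lt, w.length ≤ (N.subgroupOf T).index * ((N.subgroupOf T).index + 1) + δ ∧ δ ∣ w.length + 1 ∧
      S.sv s * (w.map S.sv).prod ∈ Nv

section

variable {N C : Subgroup G} {eps : G →* ℤˣ} {k P : ℕ} {A : Set G} {S : Lets G} {D : Set G} {T V Nv : Subgroup G}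
  {L δ : ℕ} {lev : G → ZMod L}

theorem sv_mem (H : Dat N C eps k P A S D T V Nv L δ lev) (s : Lt) : S.sv s ∈ T := by
  rw [H.Tcl]; exact Subgroup.subset_closure ⟨s, rfl⟩

theorem val_mem (H : Dat N C eps k P A S D T V Nv L δ lev) (w : List Lt) : (w.map S.sv).prod ∈ T := by
  refine T.list_prod_mem fun x hx => ?_
  obtain ⟨y, -, rfl⟩ := List.mem_map.1 hx
  exact sv_mem H y

theorem vt_eq_V (H : Dat N C eps k P A S D T V Nv L δ lev) : VT S T = V := by
  apply le_antisymm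
  · unfold VT
    rw [Subgroup.closure_le]
    rintro x ⟨y, hy, s, s', rfl⟩
    exact H.Vn y hy _ (H.Vs s s')
  · refine H.Vmin _ ?_ ?_
    · intro x hx y hy
      unfold VT at hy
      induction hy using Subgroup.closure_induction with
      | mem z hz =>
        obtain ⟨u, hu, s, s', rfl⟩ := hz
        refine Subgroup.subset_closure ⟨x * u, T.mul_mem hx hu, s, s', ?_⟩
        group
      | one => rw [mul_one, mul_inv_cancel]; exact Subgroup.one_mem _
      | mul a b _ _ ha hb =>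
        have h1 : x * (a * b) * x⁻¹ = (x * a * x⁻¹) * (x * b * x⁻¹) := by group
        rw [h1]; exact Subgroup.mul_mem _ ha hb
      | inv a _ ha =>
        have h1 : x * a⁻¹ * x⁻¹ = (x * a * x⁻¹)⁻¹ := by group
        rw [h1]; exact Subgroup.inv_mem _ ha
    · intro s s'
      exact Subgroup.subset_closure ⟨1, T.one_mem, s, s', by group⟩

theorem lev_one (H : Dat N C eps k P A S D T V Nv L δ lev) : lev 1 = 0 := by
  have h1 := H.lev_mul 1 T.one_mem 1 T.one_mem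
  rw [mul_one] at h1
  exact left_eq_add.1 h1

theorem lev_word (H : Dat N C eps k P A S D T V Nv L δ lev) (w : List Lt) :
    lev (w.map S.sv).prod = (w.length : ZMod L) := by
  induction w with
  | nil => simp [lev_one H]
  | cons s w ih =>
    rw [List.map_cons, List.prod_cons, H.lev_mul _ (sv_mem H s) _ (val_mem H w), H.lev_sv, ih, List.length_cons]
    push_cast
    ring

theorem lev_pow (H : Dat N C eps k P A S D T V Nv L δ lev) {x : G} (hx : x ∈ T) (n : ℕ) :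
    lev (x ^ n) = n * lev x := by
  induction n with
  | zero => simp [lev_one H]
  | succ n ih =>
    rw [pow_succ, H.lev_mul _ (T.pow_mem hx n) _ hx, ih]
    push_cast
    ring

/-- The length of a closed word is divisible by `δ`. -/
theorem del_dvd [Finite G] (H : Dat N C eps k P A S D T V Nv L δ lev) (w : List Lt) (h : (w.map S.sv).prod ∈ Nv) :
    δ ∣ w.length := by
  have hc : 0 < Nat.card Nv := Nat.card_pos
  have h1 : (w.map S.sv).prod ^ Nat.card Nv = 1 := by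
    have h2 : (⟨(w.map S.sv).prod, h⟩ : Nv) ^ Nat.card Nv = 1 := pow_card_eq_one'
    exact congrArg Subtype.val h2
  have h2 := lev_pow H (val_mem H w) (Nat.card Nv)
  rw [h1, lev_one H, lev_word H] at h2
  have h3 : ((Nat.card Nv * w.length : ℕ) : ZMod L) = 0 := by
    push_cast
    exact h2.symm
  rw [ZMod.natCast_eq_zero_iff, H.hL, mul_comm δ] at h3
  exact Nat.dvd_of_mul_dvd_mul_left hc h3

theorem Nv_le (H : Dat N C eps k P A S D T V Nv L δ lev) : Nv ≤ N := fun x hx => ((H.Nv_mem x).1 hx).1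

theorem Nv_card [Finite G] (H : Dat N C eps k P A S D T V Nv L δ lev) : Nat.card Nv ∣ Nat.card N :=
  Subgroup.card_dvd_of_le (Nv_le H)

theorem kap_dvd (H : Dat N C eps k P A S D T V Nv L δ lev) : (N.subgroupOf T).index ∣ k := by
  have h1 := H.gn.Nn
  have h2 : N.relIndex T ∣ N.index := Subgroup.relIndex_dvd_index_of_normal N T
  rw [H.gn.idx] at h2
  exact h2

theorem k_pos [Finite G] (H : Dat N C eps k P A S D T V Nv L δ lev) : 0 < k := by
  rw [← H.gn.idx]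
  exact Nat.pos_of_ne_zero N.index_ne_zero_of_finite

theorem cop4 [Finite G] (H : Dat N C eps k P A S D T V Nv L δ lev) :
    (Nat.card N).Coprime (4 * (N.subgroupOf T).index) := by
  refine Nat.Coprime.mul_right ?_ (Nat.Coprime.coprime_dvd_right (kap_dvd H) H.gn.cop)
  have h1 : (Nat.card N).Coprime 2 := by
    rw [Nat.coprime_comm, Nat.Prime.coprime_iff_not_dvd Nat.prime_two]
    intro h
    have h2 := (H.gn.big 2 (Nat.mem_primeFactors.2 ⟨Nat.prime_two, h, Nat.card_pos.ne'⟩)).1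
    have := k_pos H
    omega
  exact Nat.Coprime.mul_right h1 h1

theorem primes_le [Finite G] (U : Subgroup G) :
    (Nat.card U).primeFactors.card ≤ (Nat.card G).primeFactorsList.length := by
  refine (Finset.card_le_card (Nat.primeFactors_mono U.card_subgroup_dvd_card Nat.card_pos.ne')).trans ?_
  exact List.toFinset_card_le _

theorem om_pos [Finite G] (H : Dat N C eps k P A S D T V Nv L δ lev) : 0 < (Nat.card G).primeFactorsList.length := by
  rw [List.length_pos_iff_exists_mem]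
  refine ⟨P, (Nat.mem_primeFactorsList Nat.card_pos.ne').2 ⟨H.gn.prime, H.gn.dvd.trans N.card_subgroup_dvd_card⟩⟩

end

/-! ### Numbers -/

theorem le_pow_two (n : ℕ) : n ≤ 2 ^ n := Nat.lt_two_pow_self.le

/-- The bound for all numbers. -/
theorem num_bd {K κ r Q c l : ℕ} (hK : 2 ≤ K) (hκ : 0 < κ) (hκK : κ ≤ K) (hr : r ≤ K) (hQ : 0 < Q)
    (hQK : Q ≤ 2 ^ (K ^ (c + 1))) (hl : l ≤ 4 * κ ^ 2) :
    bdG κ r Q + 4 * κ * Q + l * (l.factorial * Q) ≤ 2 ^ (K ^ (c + 9)) := by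
  set E := 10 + 5 * K + 2 * K ^ (c + 1) + (2 + 2 * K) * (4 * K ^ 2 + 1) with hE
  have hK0 : 0 < K := by omega
  have hQ1 : Q ≤ 2 ^ K ^ (c + 1) := hQK
  have hKK : K ≤ 2 ^ K := le_pow_two K
  -- the third term
  have hlK : l ≤ 4 * K ^ 2 := hl.trans (Nat.mul_le_mul_left 4 (Nat.pow_le_pow_left hκK 2))
  have h4K : 4 * K ^ 2 ≤ 2 ^ (2 + 2 * K) := by
    calc 4 * K ^ 2 ≤ 4 * (2 ^ K) ^ 2 := Nat.mul_le_mul_left 4 (Nat.pow_le_pow_left hKK 2)
      _ = 2 ^ (2 + 2 * K) := by rw [← pow_mul, pow_add]; ring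
  have h3 : l * (l.factorial * Q) ≤ 2 ^ E := by
    have h1 : l.factorial ≤ 2 ^ ((2 + 2 * K) * (4 * K ^ 2)) := by
      calc l.factorial ≤ l ^ l := Nat.factorial_le_pow l
        _ ≤ (4 * K ^ 2) ^ l := Nat.pow_le_pow_left hlK l
        _ ≤ (4 * K ^ 2) ^ (4 * K ^ 2) := Nat.pow_le_pow_right (by positivity) hlK
        _ ≤ (2 ^ (2 + 2 * K)) ^ (4 * K ^ 2) := Nat.pow_le_pow_left h4K _
        _ = 2 ^ ((2 + 2 * K) * (4 * K ^ 2)) := by rw [← pow_mul]
    calc l * (l.factorial * Q) ≤ 2 ^ (2 + 2 * K) * (2 ^ ((2 + 2 * K) * (4 * K ^ 2)) * 2 ^ K ^ (c + 1)) :=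
          Nat.mul_le_mul (hlK.trans h4K) (Nat.mul_le_mul h1 hQ1)
      _ = 2 ^ ((2 + 2 * K) + (2 + 2 * K) * (4 * K ^ 2) + K ^ (c + 1)) := by
          generalize K ^ (c + 1) = M
          rw [pow_add _ (2 + 2 * K + (2 + 2 * K) * (4 * K ^ 2)), pow_add _ (2 + 2 * K)]
          ring
      _ ≤ 2 ^ E := by
          apply Nat.pow_le_pow_right (by norm_num)
          rw [hE]
          have : (2 + 2 * K) * (4 * K ^ 2 + 1) = (2 + 2 * K) + (2 + 2 * K) * (4 * K ^ 2) := by ring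
          rw [this]
          omega
  -- the second term
  have h2 : 4 * κ * Q ≤ 2 ^ E := by
    calc 4 * κ * Q ≤ 2 ^ 2 * 2 ^ K * 2 ^ K ^ (c + 1) :=
          Nat.mul_le_mul (Nat.mul_le_mul (by norm_num) (hκK.trans hKK)) hQ1
      _ = 2 ^ (2 + K + K ^ (c + 1)) := by generalize K ^ (c + 1) = M; rw [pow_add, pow_add]
      _ ≤ 2 ^ E := by
          apply Nat.pow_le_pow_right (by norm_num)
          rw [hE]; omega
  -- the first term
  have h1 : bdG κ r Q ≤ 2 ^ E := by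
    have e1 : (r + 2) ^ 2 ≤ 4 * K ^ 2 := by
      calc (r + 2) ^ 2 ≤ (2 * K) ^ 2 := Nat.pow_le_pow_left (by omega) 2
        _ = 4 * K ^ 2 := by ring
    have e2 : 3 * κ + 3 ≤ 6 * K := by omega
    have e3 : 4 * κ * Q ≤ 4 * K * Q := Nat.mul_le_mul_right Q (Nat.mul_le_mul_left 4 hκK)
    have e4 : 1 + 4 * κ * Q ≤ 8 * K * Q := by
      have : 1 ≤ 4 * K * Q := by
        have := Nat.mul_pos (Nat.mul_pos (show 0 < 4 by norm_num) hK0) hQ
        omega
      have h5 : 8 * K * Q = 4 * K * Q + 4 * K * Q := by ring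
      omega
    have e5 : bdG κ r Q ≤ 4 * K ^ 2 * (6 * K) * (4 * K * Q * (8 * K * Q)) + 4 * K := by
      unfold bdG
      exact Nat.add_le_add (Nat.mul_le_mul (Nat.mul_le_mul e1 e2) (Nat.mul_le_mul e3 e4)) (Nat.mul_le_mul_left 4 hκK)
    have e6 : 4 * K ^ 2 * (6 * K) * (4 * K * Q * (8 * K * Q)) + 4 * K ≤ 772 * (K ^ 5 * Q ^ 2) := by
      have h5 : 4 * K ^ 2 * (6 * K) * (4 * K * Q * (8 * K * Q)) = 768 * (K ^ 5 * Q ^ 2) := by ring
      have h6 : K ≤ K ^ 5 * Q ^ 2 := by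
        calc K = K ^ 1 * 1 := by ring
          _ ≤ K ^ 5 * Q ^ 2 := Nat.mul_le_mul (Nat.pow_le_pow_right hK0 (by norm_num)) (Nat.one_le_pow _ _ hQ)
      rw [h5]; omega
    have e7 : 772 * (K ^ 5 * Q ^ 2) ≤ 2 ^ 10 * ((2 ^ K) ^ 5 * (2 ^ K ^ (c + 1)) ^ 2) :=
      Nat.mul_le_mul (by norm_num) (Nat.mul_le_mul (Nat.pow_le_pow_left hKK 5) (Nat.pow_le_pow_left hQ1 2))
    have e8 : 2 ^ 10 * ((2 ^ K) ^ 5 * (2 ^ K ^ (c + 1)) ^ 2) = 2 ^ (10 + 5 * K + 2 * K ^ (c + 1)) := by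
      generalize K ^ (c + 1) = M
      rw [← pow_mul, ← pow_mul, pow_add, pow_add, mul_comm K 5, mul_comm M 2]
      ring
    refine (e5.trans (e6.trans (e7.trans e8.le))).trans (Nat.pow_le_pow_right (by norm_num) ?_)
    rw [hE]; omega
  have h5 : bdG κ r Q + 4 * κ * Q + l * (l.factorial * Q) ≤ 2 ^ (E + 2) := by
    have : (2 : ℕ) ^ (E + 2) = 4 * 2 ^ E := by ring
    omega
  refine h5.trans (Nat.pow_le_pow_right (by norm_num) ?_)
  -- the exponent
  have q0 : 16 ≤ K ^ 4 := by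
    calc 16 = 2 ^ 4 := by norm_num
      _ ≤ K ^ 4 := Nat.pow_le_pow_left hK 4
  have q1 : 1 ≤ K ^ c := Nat.one_le_pow _ _ hK0
  have f1 : 12 + 5 * K ≤ K ^ (c + 7) := by
    have h6 : 12 + 5 * K ≤ 16 * K := by omega
    calc 12 + 5 * K ≤ 16 * K := h6
      _ ≤ K ^ 4 * K := Nat.mul_le_mul_right K q0
      _ = K ^ 5 := by ring
      _ ≤ K ^ (c + 7) := Nat.pow_le_pow_right hK0 (by omega)
  have f2 : 2 * K ^ (c + 1) ≤ K ^ (c + 7) := by
    calc 2 * K ^ (c + 1) ≤ K * K ^ (c + 1) := Nat.mul_le_mul_right _ hK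
      _ = K ^ (c + 2) := by ring
      _ ≤ K ^ (c + 7) := Nat.pow_le_pow_right hK0 (by omega)
  have f3 : (2 + 2 * K) * (4 * K ^ 2 + 1) ≤ K ^ (c + 7) := by
    have h6 : 2 + 2 * K ≤ 3 * K := by omega
    have h7 : 4 * K ^ 2 + 1 ≤ 5 * K ^ 2 := by
      have : 1 ≤ K ^ 2 := Nat.one_le_pow _ _ hK0
      omega
    calc (2 + 2 * K) * (4 * K ^ 2 + 1) ≤ 3 * K * (5 * K ^ 2) := Nat.mul_le_mul h6 h7
      _ = 15 * K ^ 3 := by ring
      _ ≤ K ^ 4 * K ^ 3 := Nat.mul_le_mul_right _ (by omega)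
      _ = K ^ 7 := by ring
      _ ≤ K ^ (c + 7) := Nat.pow_le_pow_right hK0 (by omega)
  have f4 : 4 * K ^ (c + 7) ≤ K ^ (c + 9) := by
    calc 4 * K ^ (c + 7) ≤ K ^ 2 * K ^ (c + 7) := Nat.mul_le_mul_right _ (by
          calc 4 = 2 ^ 2 := by norm_num
            _ ≤ K ^ 2 := Nat.pow_le_pow_left hK 2)
      _ = K ^ (c + 9) := by ring
  rw [hE]
  omega

/-- **ROW WRD.** -/
theorem wrd_of (h90 : WdatS) (h24 : OneS) : WrdS := by
  intro c₁
  refine ⟨c₁ + 9, ?_⟩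
  intro G _ _ N C eps k P A S D T V Nv L δ lev hR hD
  obtain ⟨Q, hQ, hQK, H⟩ := h90 c₁ G N C eps k P A S D T V Nv L δ lev hR hD
  obtain ⟨l, r, lam, hrun, hlN, hlQ, hdl, hll⟩ := H.run
  set κ := (N.subgroupOf T).index with hκdef
  set K := k + (Nat.card G).primeFactorsList.length with hKdef
  have hκ : 0 < κ := Nat.pos_of_ne_zero Subgroup.index_ne_zero_of_finite
  have hk0 := k_pos hD
  have hκk : κ ≤ k := Nat.le_of_dvd hk0 (kap_dvd hD)
  have hom := om_pos hD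
  have hK : 2 ≤ K := by omega
  have hκK : κ ≤ K := by omega
  have hδ : δ ∣ 4 * κ := by
    obtain ⟨B, h1, -, h2⟩ := H.circ Q le_rfl
    obtain ⟨B', h1', -, h2'⟩ := H.circ (Q + 1) (Nat.le_succ Q)
    have h3 := del_dvd hD B h2
    have h4 := del_dvd hD B' h2'
    rw [h1] at h3
    rw [h1', mul_add, mul_one] at h4
    exact (Nat.dvd_add_right h3).1 h4
  have hf : lam ^ (l.factorial * Q) ∈ Nv := by
    rw [mul_comm, pow_mul]
    exact Nv.pow_mem hlQ _
  have hf0 : 0 < l.factorial * Q := Nat.mul_pos (Nat.factorial_pos l) hQ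
  have hcop := cop4 hD
  have hcopv : (Nat.card Nv).Coprime (4 * κ) := Nat.Coprime.coprime_dvd_left (Nv_card hD) hcop
  have hKe : 4 * K ≤ K ^ (c₁ + 9) := by
    calc 4 * K ≤ K ^ 2 * K := Nat.mul_le_mul_right K (by
          calc 4 = 2 ^ 2 := by norm_num
            _ ≤ K ^ 2 := Nat.pow_le_pow_left hK 2)
      _ = K ^ 3 := by ring
      _ ≤ K ^ (c₁ + 9) := Nat.pow_le_pow_right (by omega) (by omega)
  by_cases h1 : Nat.card (N ⊓ V : Subgroup G) = 1
  · -- no level free part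
    obtain ⟨hcl, hinv⟩ := h24 G N C eps k P A S D T V Nv L δ lev hD h1
    have hδκ : δ ≤ 4 * κ := Nat.le_of_dvd (by omega) hδ
    refine ⟨δ, 0, κ * (κ + 1) + δ, l, r, lam, 1, l.factorial * Q, hrun, hf0, ⟨Q, rfl⟩, hf, ?_, hD.δk.1, dvd_rfl, ?_, hcl,
      hinv, ?_, ⟨[], le_rfl, ?_, ?_⟩, fun _ => rfl, ?_, ?_⟩
    · exact (hδ.trans hdl).trans ⟨_, rfl⟩
    · exact Nat.Coprime.coprime_dvd_right hδ hcopv
    · rw [Subgroup.zpowers_one_eq_bot]
      exact ((Subgroup.card_eq_one).1 h1).symm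
    · rw [List.length_nil, hD.hL]
      exact (Nat.modEq_zero_iff_dvd.2 ⟨_, rfl⟩).symm
    · rw [List.map_nil, List.prod_nil, inv_one, one_mul]
      exact Nv.one_mem
    · exact (hD.δk.2.trans (by omega : k ≤ 4 * K)).trans hKe
    · have h2 := num_bd (r := 0) hK hκ hκK (by omega) hQ hQK hll
      refine le_trans ?_ h2
      have h3 : κ * (κ + 1) + δ ≤ bdG κ 0 Q := by
        unfold bdG
        have h4 : κ * (κ + 1) ≤ (0 + 2) ^ 2 * (3 * κ + 3) * (4 * κ * Q * (1 + 4 * κ * Q)) := by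
          have h5 : κ ≤ 4 * κ * Q * (1 + 4 * κ * Q) := by
            calc κ = κ * 1 * 1 := by ring
              _ ≤ 4 * κ * Q * (1 + 4 * κ * Q) :=
                Nat.mul_le_mul (Nat.mul_le_mul (by omega) hQ) (by omega)
          calc κ * (κ + 1) = (κ + 1) * κ := by ring
            _ ≤ (0 + 2) ^ 2 * (3 * κ + 3) * (4 * κ * Q * (1 + 4 * κ * Q)) := Nat.mul_le_mul (by omega) h5
        omega
      omega
  · -- the generator
    have hVT := vt_eq_V hD
    have hr : (Nat.card (N ⊓ V : Subgroup G)).primeFactors.card ≤ (Nat.card G).primeFactorsList.length := primes_le _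
    have hgen := H.gen_g (Nv_le hD) hD.Nv_cen hD.gn.Nc hD.gn.Nsq hcop
      (by rw [hVT]; exact fun x hx hx' => hD.NvV x hx' hx)
      (by
        rw [hVT]
        intro p hp
        have h2 := hD.gn.marg p (Nat.primeFactors_mono (Subgroup.card_dvd_of_le inf_le_left) Nat.card_pos.ne' hp)
        have h3 : (Nat.card G).primeFactorsList.length + 2 ≤ ((Nat.card G).primeFactorsList.length + 2) ^ 10 :=
          Nat.le_self_pow (by norm_num) _
        omega)
      (false, false) L (by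
        rw [hVT, ← hD.lev_V _ (T.pow_mem (sv_mem hD _) L), lev_pow hD (sv_mem hD _), hD.lev_sv, mul_one,
          ZMod.natCast_self])
    rw [hVT] at hgen
    obtain ⟨g, hg1, w, hw1, hw2, hw3⟩ := hgen
    refine ⟨4 * κ, bdG κ (Nat.card (N ⊓ V : Subgroup G)).primeFactors.card Q, 4 * κ * Q, l, r, lam, g, l.factorial * Q,
      hrun, hf0, ⟨Q, rfl⟩, hf, hdl.trans ⟨_, rfl⟩, by omega, hδ, hcopv, fun m hm hd => H.cl m hm hd,
      fun s => H.inv hD.Nv_cen s, hg1, ⟨w, hw1, hw2, hw3⟩, fun h => absurd h h1, ?_, ?_⟩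
    · exact (by omega : 4 * κ ≤ 4 * K).trans hKe
    · exact num_bd hK hκ hκK (by omega) hQ hQK hll

end Pool.Agent.Lib.MP_688fd0_co.SQ7.H31
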